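import Mathlib
import Pool.Prelude.Def_F_c31e40fa
import Pool.Agent.W747.MB.Loc
import Pool.Agent.W366.MB.Der
import Pool.Agent.W108.MB.Var
import Pool.Agent.W613.MB.Stg
import Pool.Agent.W762.MB.PHS
import Pool.Agent.W410.MB.ATT
import Pool.Agent.W216.MB.ALV
import Pool.Agent.W216.MB.BAS
import Pool.Agent.W216.MB.ANN
import Pool.Agent.W21.MB.Slb
import Pool.Agent.W135.MB.Vit
import Pool.Agent.W12.MB.Low
import Pool.Agent.W816.MB.Slc
import Pool.Agent.W685.MB.Fin1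
import Pool.Agent.W230.MB.Fin2
import Pool.Agent.H749R2.Area4

set_option autoImplicit false
open MeasureTheory Metric

namespace Pool.Agent.Results.MP_c35c17_an.AreaOrderOneOverN

open Pool.Agent.W747.MB

theorem hVar : P_VAR := Pool.Agent.W108.MB.main Pool.Agent.W366.MB.main

theorem hLoc : P_LOC :=
  Pool.Agent.W747.MB.loc hVar (Pool.Agent.W613.MB.main hVar) Pool.Agent.W762.MB.main
    Pool.Agent.W216.MB.ALV.main Pool.Agent.W135.MB.Vit.main
    (Pool.Agent.W12.MB.main Pool.Agent.W410.MB.ATT.main Pool.Agent.W216.MB.ALV.main)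
    (Pool.Agent.W816.MB.main Pool.Agent.W366.MB.main hVar Pool.Agent.W21.MB.main)
    Pool.Agent.W216.MB.BAS.main

theorem hFin1 : P_FIN1 :=
  Pool.Agent.W685.MB.Fin1.main Pool.Agent.W216.MB.ALV.main Pool.Agent.W216.MB.BAS.main
    Pool.Agent.W135.MB.Vit.main hLoc

theorem hFin2 : P_FIN2 :=
  Pool.Agent.W230.MB.main Pool.Agent.W216.MB.ALV.main Pool.Agent.W216.MB.BAS.main
    Pool.Agent.W135.MB.Vit.main Pool.Agent.W216.MB.ANN.main hLoc

theorem hFin3 : P_FIN3 :=
  Pool.Agent.W230.MB.main3 hFin2 Pool.Agent.W216.MB.ALV.main Pool.Agent.W216.MB.ANN.main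

/-- The parameters with an attracting fixed point. -/
theorem prop : ∃ C : ℝ, 0 < C ∧ ∀ n : ℕ, 2 ≤ n → volume (Bad n) ≤
    ENNReal.ofReal (C / Real.log n) * volume (N62a1eb23.multibrotSet n \
      {c | ∃ z, N62a1eb23.IsAttractingCycle (fun z => z ^ n + c) 1 z}) := by
  obtain ⟨C, hC, h3⟩ := hFin3
  refine ⟨max (4 * C) 840, by positivity, fun n hn => ?_⟩
  have hn2 : (2 : ℝ) ≤ n := by exact_mod_cast hn
  have hlog : 0 < Real.log n := Real.log_pos (by linarith)
  have hsub : Bad n ⊆ N62a1eb23.multibrotSet n \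
      {c | ∃ z, N62a1eb23.IsAttractingCycle (fun z => z ^ n + c) 1 z} := by
    rintro c ⟨h1, h2⟩
    refine ⟨h1, fun h => h2 ?_⟩
    obtain ⟨z, hz⟩ := h
    exact ⟨1, z, hz⟩
  rcases le_or_gt (10 ^ 6) n with h | h
  · have hlow := Pool.Agent.H749R2.Area.lower h
    refine (h3 n hn).trans (le_trans ?_ (mul_le_mul_right hlow _))
    rw [← ENNReal.ofReal_mul (by positivity)]
    apply ENNReal.ofReal_le_ofReal
    have : max (4 * C) 840 / Real.log n * (Real.log n / (4 * n)) = max (4 * C) 840 / 4 / n := by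
      field_simp
    rw [this]
    have h4 : 4 * C ≤ max (4 * C) 840 := le_max_left _ _
    gcongr
    linarith
  · have hn6 : (n : ℝ) ≤ 10 ^ 6 := by exact_mod_cast h.le
    have hlog6 : Real.log n ≤ 14 := by
      rw [Real.log_le_iff_le_exp (by linarith)]
      refine hn6.trans ?_
      have he : (2.7 : ℝ) ≤ Real.exp 1 := by
        have := Real.exp_one_gt_d9
        linarith
      have : Real.exp 14 = Real.exp 1 ^ 14 := by
        rw [← Real.exp_nat_mul]
        norm_num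
      rw [this]
      calc (10 : ℝ) ^ 6 ≤ (2.7 : ℝ) ^ 14 := by norm_num
        _ ≤ _ := by gcongr
    refine (measure_mono hsub).trans ?_
    have h1 : (1 : ENNReal) ≤ ENNReal.ofReal (max (4 * C) 840 / Real.log n) := by
      rw [ENNReal.one_le_ofReal, le_div_iff₀ hlog]
      have : (840 : ℝ) ≤ max (4 * C) 840 := le_max_right _ _
      linarith
    calc _ = 1 * volume (N62a1eb23.multibrotSet n \
          {c | ∃ z, N62a1eb23.IsAttractingCycle (fun z => z ^ n + c) 1 z}) := by rw [one_mul]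
      _ ≤ _ := by gcongr

/-- The area of the non-hyperbolic part of the Multibrot set `M_n` is at most `C / n`, with
localised versions. -/
theorem result :
    ∃ C : ℝ, 0 < C ∧ ∀ n : ℕ, 2 ≤ n →
      let B : Set ℂ := N62a1eb23.multibrotSet n \
        {c | ∃ m z, N62a1eb23.IsAttractingCycle (fun z => z ^ n + c) m z}
      volume B ≤ ENNReal.ofReal (C / n) ∧
      volume B ≤ ENNReal.ofReal (C / Real.log n) * volume (N62a1eb23.multibrotSet n \
        {c | ∃ z, N62a1eb23.IsAttractingCycle (fun z => z ^ n + c) 1 z}) ∧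
      (∀ Y : ℝ, 1 ≤ Y → volume (B ∩ {c | Y ≤ n * ‖c‖ ^ (n - 1)}) ≤
        ENNReal.ofReal (C * (1 + Real.log Y) / (n * Y))) ∧
      ∀ c₀ : ℂ, 1 ≤ n * ‖c₀‖ ^ (n - 1) → volume (B ∩ closedBall c₀ (‖c₀‖ / n)) ≤
        ENNReal.ofReal (C * (1 + Real.log (n * ‖c₀‖ ^ (n - 1))) / (n * ‖c₀‖ ^ (n - 1))) *
          volume (closedBall c₀ (‖c₀‖ / n)) := by
  obtain ⟨C₁, hC₁, h1⟩ := hFin1
  obtain ⟨C₂, hC₂, h2⟩ := hFin2
  obtain ⟨C₃, hC₃, h3⟩ := hFin3
  obtain ⟨C₄, hC₄, h4⟩ := prop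
  refine ⟨C₁ + C₂ + C₃ + C₄, by positivity, fun n hn => ?_⟩
  have hn2 : (2 : ℝ) ≤ n := by exact_mod_cast hn
  have hlog : 0 < Real.log n := Real.log_pos (by linarith)
  refine ⟨(h3 n hn).trans (ENNReal.ofReal_le_ofReal ?_), (h4 n hn).trans ?_, fun Y hY =>
    (h2 n hn Y hY).trans (ENNReal.ofReal_le_ofReal ?_), fun c₀ hc₀ => (h1 n hn c₀ hc₀).trans ?_⟩
  · gcongr
    linarith
  · gcongr
    linarith
  · have hl : 0 ≤ Real.log Y := Real.log_nonneg hY
    gcongr
    linarith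
  · have hl : 0 ≤ Real.log (n * ‖c₀‖ ^ (n - 1)) := Real.log_nonneg hc₀
    change _ ≤ ENNReal.ofReal (_ * (1 + Real.log (Y n c₀)) / Y n c₀) * _
    have hl' : 0 ≤ Real.log (Y n c₀) := hl
    have hY' : 1 ≤ Y n c₀ := hc₀
    gcongr
    linarith

end Pool.Agent.Results.MP_c35c17_an.AreaOrderOneOverN
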