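import Mathlib
import Pool.Prelude.Def_F_c31e40fa
import Pool.Agent.W677.VF8

set_option autoImplicit false

open Metric Topology

namespace Pool.Agent.Results.MP_c35c17_an.CriticalOrbitNearCycles

/-- The map `z ↦ z ^ n + c`. -/
def f (n : ℕ) (c : ℂ) : ℂ → ℂ := fun z => z ^ n + c

/-- The parameters `c` for which `z ^ n + c` has an attracting cycle. -/
def hyp (n : ℕ) : Set ℂ := {c | ∃ m z, N62a1eb23.IsAttractingCycle (f n c) m z}

/-- The `j`-th iterate of the critical point `0` of `z ^ n + c`, as a function of `c`. -/
def crit (n j : ℕ) (c : ℂ) : ℂ := (f n c)^[j] 0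

/-- Effective density of hyperbolicity when the critical orbit comes close to a cycle: if `z x` is a
periodic point of `z ^ n + x` which depends continuously on the parameter `x`, the distance from a
parameter `c` of the Multibrot set to the parameters with an attracting cycle is bounded in terms of
the distance between `z c` and any point of the critical orbit and of the difference of their
velocities. -/
theorem result (n : ℕ) (hn : 2 ≤ n) (c : ℂ) (hc : c ∈ N62a1eb23.multibrotSet n) (p : ℕ)
    (hp : 1 ≤ p) (z : ℂ → ℂ) (hz : ContinuousAt z c)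
    (hper : ∀ᶠ x in 𝓝 c, (f n x)^[p] (z x) = z x) (j : ℕ) :
    infDist c (hyp n) * ‖deriv z c - deriv (crit n j) c‖ ≤
      2 * ‖z c - crit n j c‖ * Real.log (4 / ‖z c - crit n j c‖) :=
  Pool.Agent.W677.VF.position hn hc hp hz hper j

end Pool.Agent.Results.MP_c35c17_an.CriticalOrbitNearCycles
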