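import Mathlib
import Pool.Prelude.Def_F_c31e40fa
import Pool.Agent.W677.VF7

set_option autoImplicit false

open Metric Topology

namespace Pool.Agent.Results.MP_c35c17_an.CycleMultipliers

/-- The map `z ↦ z ^ n + c`. -/
def f (n : ℕ) (c : ℂ) : ℂ → ℂ := fun z => z ^ n + c

/-- The parameters `c` for which `z ^ n + c` has an attracting cycle. -/
def hyp (n : ℕ) : Set ℂ := {c | ∃ m z, N62a1eb23.IsAttractingCycle (f n c) m z}

/-- The multiplier at `w` of the iterate of order `p` of `z ^ n + c`. -/
noncomputable def mult (n p : ℕ) (c w : ℂ) : ℂ := deriv (f n c)^[p] w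

/-- Effective density of hyperbolicity from the multiplier of a cycle: if `z x` is a periodic point
of `z ^ n + x` which depends continuously on the parameter `x`, and its multiplier at `x = c` is not
smaller than `1` in modulus, then the distance from `c` to the parameters with an attracting cycle
is bounded in terms of the multiplier and of its derivative at `c`. -/
theorem result (n : ℕ) (hn : 2 ≤ n) (c : ℂ) (p : ℕ) (hp : 1 ≤ p) (z : ℂ → ℂ)
    (hz : ContinuousAt z c) (hper : ∀ᶠ x in 𝓝 c, (f n x)^[p] (z x) = z x)
    (hmult : 1 ≤ ‖mult n p c (z c)‖) :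
    infDist c (hyp n) * ‖deriv (fun x => mult n p x (z x)) c‖ ≤
      2 * ‖mult n p c (z c)‖ * Real.log ‖mult n p c (z c)‖ :=
  Pool.Agent.W677.VF.multiplier hn hp hz hper hmult

end Pool.Agent.Results.MP_c35c17_an.CycleMultipliers
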